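import Mathlib

/-!
Subfields of finitely generated fields are finitely generated: the purely transcendental step.
-/

set_option autoImplicit false
set_option linter.overlappingInstances false

open IntermediateField

namespace Pool.Agent.Helper84.VI

theorem fg_of_adjoin {k L ι : Type} [Field k] [Field L] [Algebra k L] (E : IntermediateField k L)
    {t : ι → L} (ht : AlgebraicIndependent E t)
    (hfg : ((adjoin E (Set.range t)).restrictScalars k).FG) : E.FG := by
  classical
  obtain ⟨S, hS⟩ := hfg
  have hmem : ∀ s : L, s ∈ S → ∃ p q : MvPolynomial ι E,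
      s = MvPolynomial.aeval t p / MvPolynomial.aeval t q := by
    intro s hs
    have h1 : s ∈ adjoin k (S : Set L) := subset_adjoin k _ (Finset.mem_coe.2 hs)
    rw [hS, mem_restrictScalars] at h1
    exact (mem_adjoin_range_iff E t s).1 h1
  choose! p q hpq using hmem
  let T : Finset E := S.biUnion fun s =>
    ((p s).support.image fun m => (p s).coeff m) ∪ ((q s).support.image fun m => (q s).coeff m)
  let E₀ : IntermediateField k L := adjoin k (((↑) : E → L) '' (T : Set E))
  have hE₀E : E₀ ≤ E := by
    rw [adjoin_le_iff]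
    rintro _ ⟨x, -, rfl⟩
    exact x.2
  have hcoef : ∀ s ∈ S, (∀ m, (((p s).coeff m : E) : L) ∈ E₀) ∧ ∀ m, (((q s).coeff m : E) : L) ∈ E₀ := by
    intro s hs
    constructor
    · intro m
      by_cases hm : m ∈ (p s).support
      · apply subset_adjoin
        refine ⟨_, Finset.mem_coe.2 (Finset.mem_biUnion.2 ⟨s, hs, Finset.mem_union_left _
          (Finset.mem_image_of_mem _ hm)⟩), rfl⟩
      · rw [MvPolynomial.notMem_support_iff.1 hm]
        exact zero_mem _
    · intro m
      by_cases hm : m ∈ (q s).support
      · apply subset_adjoin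
        refine ⟨_, Finset.mem_coe.2 (Finset.mem_biUnion.2 ⟨s, hs, Finset.mem_union_right _
          (Finset.mem_image_of_mem _ hm)⟩), rfl⟩
      · rw [MvPolynomial.notMem_support_iff.1 hm]
        exact zero_mem _
  -- everything is generated over `E₀` by `t`
  have hval : ∀ P : MvPolynomial ι E, (∀ m, ((P.coeff m : E) : L) ∈ E₀) →
      MvPolynomial.aeval t P ∈ adjoin E₀ (Set.range t) := by
    intro P hP
    rw [MvPolynomial.aeval_def, MvPolynomial.eval₂_eq]
    refine sum_mem fun m _ => mul_mem ?_ (prod_mem fun i _ => pow_mem (subset_adjoin _ _ (Set.mem_range_self i)) _)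
    exact (adjoin E₀ (Set.range t)).algebraMap_mem ⟨_, hP m⟩
  have hle : adjoin k (S : Set L) ≤ (adjoin E₀ (Set.range t)).restrictScalars k := by
    rw [adjoin_le_iff]
    intro s hs
    rw [SetLike.mem_coe, mem_restrictScalars, hpq s (Finset.mem_coe.1 hs)]
    obtain ⟨h1, h2⟩ := hcoef s (Finset.mem_coe.1 hs)
    exact div_mem (hval _ h1) (hval _ h2)
  have hEE : E ≤ E₀ := by
    intro e he
    have h1 : e ∈ adjoin k (S : Set L) := by
      rw [hS, mem_restrictScalars]
      exact (adjoin E (Set.range t)).algebraMap_mem ⟨e, he⟩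
    have h2 := hle h1
    rw [mem_restrictScalars, mem_adjoin_range_iff] at h2
    obtain ⟨P, Q, hPQ⟩ := h2
    by_cases hQ : MvPolynomial.aeval t Q = 0
    · rw [hQ, div_zero] at hPQ
      rw [hPQ]
      exact zero_mem _
    · let φ : E₀ →+* E := (IntermediateField.inclusion hE₀E).toRingHom
      have hφ : ∀ R : MvPolynomial ι E₀, MvPolynomial.aeval t (MvPolynomial.map φ R) =
          MvPolynomial.aeval t R := by
        intro R
        rw [MvPolynomial.aeval_def, MvPolynomial.aeval_def, MvPolynomial.eval₂_map]
        rfl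
      have h3 : MvPolynomial.aeval t (MvPolynomial.C (⟨e, he⟩ : E) * MvPolynomial.map φ Q) =
          MvPolynomial.aeval t (MvPolynomial.map φ P) := by
        rw [map_mul, hφ, hφ, MvPolynomial.aeval_C]
        change e * _ = _
        rw [hPQ, div_mul_cancel₀ _ hQ]
      have h4 := ht h3
      have hQ0 : Q ≠ 0 := by
        rintro rfl
        exact hQ (map_zero _)
      obtain ⟨m, hm⟩ := MvPolynomial.ne_zero_iff.1 hQ0
      have h5 := congrArg (fun R => ((MvPolynomial.coeff m R : E) : L)) h4
      simp only [MvPolynomial.coeff_C_mul, MvPolynomial.coeff_map] at h5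
      have h6 : e * ((Q.coeff m : E₀) : L) = ((P.coeff m : E₀) : L) := h5
      have h7 : ((Q.coeff m : E₀) : L) ≠ 0 := by
        intro h
        exact hm (Subtype.ext h)
      rw [← eq_div_iff h7] at h6
      rw [h6]
      exact div_mem (P.coeff m).2 (Q.coeff m).2
  have hE : E₀ = E := le_antisymm hE₀E hEE
  rw [← hE]
  exact ⟨T.image ((↑) : E → L), by rw [Finset.coe_image]⟩

end Pool.Agent.Helper84.VI
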