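import Pool.Agent.Helper84.VI.Var
import Pool.Agent.Helper84.VI.Sub
import Pool.Agent.R882.UC

/-!
Viehweg's inequality for uniruled varieties and for varieties of general type.
-/

set_option autoImplicit false
set_option linter.overlappingInstances false

open FF Pool.Agent.W602.GT IntermediateField
open Pool.Agent.W619.PQ (IsUniruled)

namespace Pool.Agent.Helper84.VI

/-- subfields of finitely generated fields are finitely generated -/
theorem ess_sub {L : Type} [Field L] [Algebra ℂ L] [Algebra.EssFiniteType ℂ L]
    (E : IntermediateField ℂ L) : Algebra.EssFiniteType ℂ E := by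
  obtain ⟨ι, t, ht⟩ := exists_isTranscendenceBasis' E L
  have h1 : Algebra.IsAlgebraic (adjoin E (Set.range t)) L := ht.isAlgebraic_field
  have h0 : Algebra.EssFiniteType E L := Algebra.EssFiniteType.of_comp ℂ E L
  have h2 : Algebra.EssFiniteType (adjoin E (Set.range t)) L :=
    Algebra.EssFiniteType.of_comp E (adjoin E (Set.range t)) L
  have h3 : FiniteDimensional (adjoin E (Set.range t)) L :=
    Algebra.finite_of_essFiniteType_of_isAlgebraic
  have h4 : FiniteDimensional ((adjoin E (Set.range t)).restrictScalars ℂ) L := h3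
  have h5 : Algebra.EssFiniteType ℂ ((adjoin E (Set.range t)).restrictScalars ℂ) :=
    Pool.Agent.TH466.QG.ess_below (K := L)
  rw [IntermediateField.essFiniteType_iff] at h5
  rw [IntermediateField.essFiniteType_iff]
  exact fg_of_adjoin E ht.1 h5

/-- varieties of general type have the maximal Kodaira dimension -/
theorem kod_general {k K : Type} [Field k] [Field K] [Algebra k K] {w : ℕ}
    (h : GeneralType k K w) : KodGe k K w (fun _ => False) w := by
  obtain ⟨-, N, hN, ω, h1, h2, D, hD, h3⟩ := h
  refine ⟨N, hN, ω, fun j => ⟨h1 j, fun P hP D hDP => ?_, fun P hP _ => h2 P hP j⟩, D, hD, h3⟩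
  refine h2 P hP j D fun i f hf => ?_
  by_cases h0 : f = 0
  · rw [h0, map_zero]
    exact P.reg_zero
  · have h3 := P.reg_mul (hDP i f) hf
    rwa [div_mul_cancel₀ _ h0] at h3

/-- **Viehweg's inequality for varieties of general type.** -/
theorem viehweg_of_general {L : Type} [Field L] [Algebra ℂ L] [Algebra.EssFiniteType ℂ L] {n : ℕ}
    (h : GeneralType ℂ L n) : Viehweg L n := by
  intro E _ d f hd hf hY q hq
  have hk : KodGe ℂ L n (fun _ => False) n := kod_general h
  have hdf : d + f = n := by
    have h3 := trdeg_add_eq ℂ E (A := L)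
    rw [hd, hf, h.1] at h3
    exact_mod_cast h3
  have hqf : q ≤ f := Pool.Agent.R882.UA.kod_le_dim hf hq
  refine ⟨fun a ha => ?_, fun v hv => ?_⟩
  · have := Pool.Agent.R882.UA.kod_le_dim hd ha
    exact Pool.Agent.R882.UA.kod_mono hk (by omega)
  · have := var_le E hd hv
    exact Pool.Agent.R882.UA.kod_mono hk (by omega)

/-- **Viehweg's inequality for uniruled varieties.** -/
theorem viehweg_of_uniruled {L : Type} [Field L] [Algebra ℂ L] [Algebra.EssFiniteType ℂ L] {n : ℕ}
    (hn : Algebra.trdeg ℂ L = n) (h : IsUniruled ℂ L n) : Viehweg L n := by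
  intro E _ d f hd hf hY q hq
  have hE : Algebra.EssFiniteType ℂ E := ess_sub E
  exact absurd (psef_of_kodGe (Pool.Agent.R882.UA.kod_mono hq (Nat.zero_le _)))
    (Pool.Agent.R882.UA.fib_not hn h E hd hf hY)

end Pool.Agent.Helper84.VI
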