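import Mathlib
import Pool.Agent.W602.GT.KDefs

/-!
The variation of a fibration, and Viehweg's inequality, in terms of function fields.
-/

set_option autoImplicit false
set_option linter.overlappingInstances false

open FF Pool.Agent.W602.GT

namespace Pool.Agent.Helper84.VI

/-- `κ ≥ h` for the smooth projective varieties of dimension `n` over `k` with the function field
`K`: for some `N ≥ 1` there are `h + 1` regular `N`-canonical forms whose ratios are algebraically
independent. -/
def KappaGe (k K : Type) [Field k] [Field K] [Algebra k K] (n h : ℕ) : Prop :=
  KodGe k K n (fun _ => False) h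

/-- The closure of the subfield `E` of `L` in the algebraic closure of `L`: an algebraic closure of
`E`, as a field over `ℂ`. -/
noncomputable def Ebar {L : Type} [Field L] [Algebra ℂ L] (E : IntermediateField ℂ L) :
    IntermediateField ℂ (AlgebraicClosure L) :=
  (algebraicClosure E (AlgebraicClosure L)).restrictScalars ℂ

/-- The function field of the geometric generic fibre of `W ⇢ Y`: the compositum of `L` and the
algebraic closure of `E`. -/
noncomputable def Geom {L : Type} [Field L] [Algebra ℂ L] (E : IntermediateField ℂ L) :
    IntermediateField ℂ (AlgebraicClosure L) :=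
  (IsScalarTower.toAlgHom ℂ L (AlgebraicClosure L)).fieldRange ⊔ Ebar E

/-- The variation of the fibration `W ⇢ Y` given by the subfield `E` of `L` is at least `v`: if the
geometric generic fibre is birational to the base change of a variety over an algebraically closed
subfield `K₀` of the algebraic closure of `E`, then the transcendence degree of `K₀` over `ℂ` is at
least `v`. Here `N` is the algebraic closure of `E` as a field over `K₀`, and `M` is the function
field of the variety over `K₀`. -/
def VarGe {L : Type} [Field L] [Algebra ℂ L] (E : IntermediateField ℂ L) (v : ℕ) : Prop :=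
  ∀ (K₀ : IntermediateField ℂ (AlgebraicClosure L))
    (M N : IntermediateField K₀ (AlgebraicClosure L)), IsAlgClosed K₀ →
    N.restrictScalars ℂ = Ebar E → M.FG → M.LinearDisjoint N →
    (M ⊔ N).restrictScalars ℂ = Geom E → (v : Cardinal) ≤ Algebra.trdeg ℂ K₀

/-- Viehweg's inequality `κ(W) ≥ κ(F) + max (κ(Y), Var (W → Y))` for all fibrations `W → Y` with
`κ(Y) ≥ 0` of the smooth projective varieties `W` of dimension `n` with the function field `L`. The
fibration is given by the subfield `E` of `L`, the function field of `Y`, which is algebraically
closed in `L`, and the generic fibre `F` is the variety over `E` with the function field `L`. -/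
def Viehweg (L : Type) [Field L] [Algebra ℂ L] (n : ℕ) : Prop :=
  ∀ E : IntermediateField ℂ L, (∀ x : L, IsAlgebraic E x → x ∈ E) → ∀ d f : ℕ,
    Algebra.trdeg ℂ E = d → Algebra.trdeg E L = f → KappaGe ℂ E d 0 → ∀ q : ℕ,
    KappaGe E L f q → (∀ a : ℕ, KappaGe ℂ E d a → KappaGe ℂ L n (q + a)) ∧
      ∀ v : ℕ, VarGe E v → KappaGe ℂ L n (q + v)

end Pool.Agent.Helper84.VI
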