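import Pool.Agent.Helper84.VI.Defs

/-!
The variation of a fibration is at most the dimension of the base.
-/

set_option autoImplicit false
set_option linter.overlappingInstances false

open FF Pool.Agent.W602.GT IntermediateField

namespace Pool.Agent.Helper84.VI

variable {L : Type} [Field L] [Algebra ℂ L] (E : IntermediateField ℂ L)

theorem isAlgClosed_Ebar : IsAlgClosed (Ebar E) := by
  have h1 : IsAlgClosure E (algebraicClosure E (AlgebraicClosure L)) := inferInstance
  exact h1.isAlgClosed

theorem trdeg_Ebar : Algebra.trdeg ℂ (Ebar E) = Algebra.trdeg ℂ E := by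
  have h1 : Algebra.trdeg ℂ E +
      Algebra.trdeg E (algebraicClosure E (AlgebraicClosure L)) =
      Algebra.trdeg ℂ (algebraicClosure E (AlgebraicClosure L)) := trdeg_add_eq ..
  have h2 : Algebra.trdeg E (algebraicClosure E (AlgebraicClosure L)) = 0 :=
    trdeg_eq_zero
  rw [h2, add_zero] at h1
  exact h1.symm

theorem geom_eq [Algebra.EssFiniteType ℂ L] : ∃ M : IntermediateField (Ebar E)
    (AlgebraicClosure L), M.FG ∧ M.restrictScalars ℂ = Geom E := by
  classical
  obtain ⟨S, hS⟩ := IntermediateField.fg_top_iff.2 (inferInstance : Algebra.EssFiniteType ℂ L)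
  refine ⟨IntermediateField.adjoin (Ebar E)
    ((S.image (algebraMap L (AlgebraicClosure L)) : Finset _) : Set (AlgebraicClosure L)),
    ⟨_, rfl⟩, ?_⟩
  rw [IntermediateField.restrictScalars_adjoin, IntermediateField.adjoin_union,
    IntermediateField.adjoin_self, sup_comm, Geom]
  congr 1
  have h1 : (IsScalarTower.toAlgHom ℂ L (AlgebraicClosure L)).fieldRange =
      (⊤ : IntermediateField ℂ L).map (IsScalarTower.toAlgHom ℂ L (AlgebraicClosure L)) := by
    rw [← AlgHom.fieldRange_eq_map]
  rw [h1, ← hS, IntermediateField.adjoin_map]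
  congr 1
  rw [Finset.coe_image]
  rfl

/-- **The variation is at most the dimension of the base.** -/
theorem var_le [Algebra.EssFiniteType ℂ L] {d v : ℕ} (hd : Algebra.trdeg ℂ E = d)
    (hv : VarGe E v) : v ≤ d := by
  obtain ⟨M, hM, hMG⟩ := geom_eq E
  have h1 := hv (Ebar E) M ⊥ (isAlgClosed_Ebar E) ?_ hM ?_ ?_
  · rw [trdeg_Ebar, hd] at h1
    exact_mod_cast h1
  · ext x
    rw [IntermediateField.mem_restrictScalars, IntermediateField.mem_bot]
    constructor
    · rintro ⟨y, rfl⟩
      exact y.2
    · intro hx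
      exact ⟨⟨x, hx⟩, rfl⟩
  · exact IntermediateField.LinearDisjoint.bot_right M
  · rw [sup_bot_eq]
    exact hMG

end Pool.Agent.Helper84.VI
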